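import Pool.Agent.H67.AG.T1
import Pool.Agent.H67.AG.T4

/-!
CA: the first step.
-/

set_option autoImplicit false

open MeasureTheory ProbabilityTheory Filter Topology Finset
open scoped Nat ENNReal

namespace Pool.Agent.H93.AG

open Pool.Agent.H67.AG

section

variable {X : Type} [mX : MeasurableSpace X]

theorem rt_le (T : X ≃ᵐ X) : Rt T ≤ mX := iSup_le fun _ => MeasurableSpace.invariants_le _

theorem inv_le_rt (T : X ≃ᵐ X) {n : ℕ} (hn : 0 < n) : Inv T n ≤ Rt T := by
  refine le_trans (fun A hA => ?_) (le_iSup (fun w : ℕ => Inv T (w !)) n)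
  obtain ⟨h1, h2⟩ := MeasurableSpace.measurableSet_invariants.1 hA
  refine MeasurableSpace.measurableSet_invariants.2 ⟨h1, ?_⟩
  obtain ⟨m, hm⟩ := Nat.dvd_factorial hn le_rfl
  rw [hm]
  induction m with
  | zero => simp
  | succ m ih =>
    have : ∀ l : ℕ, T^[n * l] ⁻¹' A = A := by
      intro l
      induction l with
      | zero => simp
      | succ l ihl =>
        rw [mul_add, mul_one, Function.iterate_add, Set.preimage_comp, ihl, h2]
    exact this _

theorem fst_rt (T : X ≃ᵐ X) {G : Set X} (hG : MeasurableSet[Rt T] G) :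
    MeasurableSet[Rt (TT T)] (Prod.fst ⁻¹' G) := by
  have h1 : MeasurableSpace.comap Prod.fst (Rt T) ≤ Rt (TT T) := by
    show MeasurableSpace.comap Prod.fst (⨆ w : ℕ, Inv T (w !)) ≤ _
    rw [MeasurableSpace.comap_iSup]
    refine iSup_le fun w => le_trans ?_ (le_iSup (fun w : ℕ => Inv (TT T) (w !)) w)
    rintro _ ⟨A, hA, rfl⟩
    obtain ⟨h1, h2⟩ := MeasurableSpace.measurableSet_invariants.1 hA
    refine MeasurableSpace.measurableSet_invariants.2 ⟨measurable_fst h1, ?_⟩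
    have hs : Function.Semiconj (Prod.fst : X × X → X) (TT T) T := fun q => rfl
    rw [← Set.preimage_comp, (hs.iterate_right (w !)).comp_eq, Set.preimage_comp, h2]
  exact h1 _ ⟨G, hG, rfl⟩

end

section

variable {X : Type} [mX : MeasurableSpace X] [StandardBorelSpace X]

theorem mis_int (hj1 : T_J1) (hj2 : T_J2) (μ : Measure X) [IsProbabilityMeasure μ] (T : X ≃ᵐ X)
    (Z : SA X) (hRZ : Rt T ≤ Z.1) {k : ℕ} (D : Fin k → X → ℝ) (hD : ∀ i, Measurable (D i))
    (hDv : ∀ i x, D i x = 1 ∨ D i x = -1) {G : Set X} (hG : MeasurableSet[Rt T] G) :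
    ∫ q in Prod.fst ⁻¹' G, Mis (JJ μ Z) (Rt (TT T)) (fun i q => D i q.1) (fun i q => D i q.2) q
      ∂(JJ μ Z) = 1 / 2 * ∑ i, ∫ x in G, (1 - ((μ[D i | Z.1]) x) ^ 2) ∂μ := by
  obtain ⟨hJ, hfst, hsnd, -⟩ := hj2 X μ Z
  have hGm : MeasurableSet G := rt_le T _ hG
  have hb : ∀ i x, |D i x| ≤ 1 := by
    intro i x
    rcases hDv i x with h | h <;> rw [h] <;> norm_num
  have hmdl : ∀ i, Measurable (dl (fun i (q : X × X) => D i q.1) (fun i q => D i q.2) i) := by
    intro i
    unfold dl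
    refine Measurable.ite ?_ measurable_const measurable_const
    exact measurableSet_eq_fun ((hD i).comp measurable_fst) ((hD i).comp measurable_snd)
  have hdlb : ∀ i q, |dl (fun i (q : X × X) => D i q.1) (fun i q => D i q.2) i q| ≤ 1 := by
    intro i q
    unfold dl
    split_ifs <;> norm_num
  have hdli : ∀ i, Integrable (dl (fun i (q : X × X) => D i q.1) (fun i q => D i q.2) i)
      (JJ μ Z) := fun i => Integrable.of_bound (hmdl i).aestronglyMeasurable 1
        (Eventually.of_forall fun q => by rw [Real.norm_eq_abs]; exact hdlb i q)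
  have hDi : ∀ i, Integrable (D i) μ := fun i =>
    Integrable.of_bound (hD i).aestronglyMeasurable 1
      (Eventually.of_forall fun q => by rw [Real.norm_eq_abs]; exact hb i q)
  have hcb : ∀ i, ∀ᵐ x ∂μ, |(μ[D i | Z.1]) x| ≤ 1 := fun i =>
    ae_bdd_abs_condExp_of_ae_bdd_abs (R := 1) (Eventually.of_forall fun x => hb i x)
  unfold Mis
  rw [integral_finsetSum _ fun i _ => integrable_condExp.integrableOn, Finset.mul_sum]
  refine Finset.sum_congr rfl fun i _ => ?_
  rw [setIntegral_condExp (rt_le (TT T)) (hdli i) (fst_rt T hG)]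
  have h1 : ∀ q : X × X, dl (fun i (q : X × X) => D i q.1) (fun i q => D i q.2) i q =
      (1 - D i q.1 * D i q.2) / 2 := by
    intro q
    unfold dl
    rcases hDv i q.1 with h | h <;> rcases hDv i q.2 with h' | h' <;> simp only [h, h'] <;>
      norm_num
  have hprod : Integrable (fun q : X × X => D i q.1 * D i q.2) (JJ μ Z) := by
    refine Integrable.of_bound (((hD i).comp measurable_fst).mul
      ((hD i).comp measurable_snd)).aestronglyMeasurable 1 (Eventually.of_forall fun q => ?_)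
    rw [norm_mul, Real.norm_eq_abs, Real.norm_eq_abs]
    have := mul_le_mul (hb i q.1) (hb i q.2) (abs_nonneg _) zero_le_one
    simpa using this
  have h2 : ∫ q in Prod.fst ⁻¹' G, D i q.1 * D i q.2 ∂(JJ μ Z) =
      ∫ x in G, ((μ[D i | Z.1]) x) ^ 2 ∂μ := by
    rw [← integral_indicator (measurable_fst hGm)]
    have h3 : (Prod.fst ⁻¹' G).indicator (fun q : X × X => D i q.1 * D i q.2) =
        fun q => (G.indicator (D i)) q.1 * D i q.2 := by
      funext q
      by_cases hq : q.1 ∈ G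
      · rw [Set.indicator_of_mem (show q ∈ Prod.fst ⁻¹' G from hq), Set.indicator_of_mem hq]
      · rw [Set.indicator_of_notMem (show q ∉ Prod.fst ⁻¹' G from hq),
          Set.indicator_of_notMem hq, zero_mul]
    rw [h3, hj1 X μ Z (G.indicator (D i)) (D i) ((hD i).indicator hGm) (hD i)
      ⟨1, fun x => ?_⟩ ⟨1, hb i⟩, ← integral_indicator hGm]
    · refine integral_congr_ae ?_
      filter_upwards [condExp_indicator (m := Z.1) (hDi i) (hRZ _ hG)] with x hx
      rw [hx]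
      by_cases hxG : x ∈ G
      · rw [Set.indicator_of_mem hxG, Set.indicator_of_mem hxG]
        ring
      · rw [Set.indicator_of_notMem hxG, Set.indicator_of_notMem hxG, zero_mul]
    · by_cases hxG : x ∈ G
      · rw [Set.indicator_of_mem hxG]
        exact hb i x
      · rw [Set.indicator_of_notMem hxG]
        norm_num
  have h4 : (JJ μ Z).real (Prod.fst ⁻¹' G) = μ.real G := by
    unfold Measure.real
    rw [hfst.measure_preimage hGm.nullMeasurableSet]
  have hsq : IntegrableOn (fun x => ((μ[D i | Z.1]) x) ^ 2) G μ := by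
    refine Integrable.of_bound ((stronglyMeasurable_condExp.mono Z.2).aestronglyMeasurable.pow 2)
      1 (ae_restrict_of_ae ?_)
    filter_upwards [hcb i] with x hx
    rw [Real.norm_eq_abs, abs_pow]
    exact pow_le_one₀ (abs_nonneg _) hx
  calc ∫ q in Prod.fst ⁻¹' G, dl (fun i (q : X × X) => D i q.1) (fun i q => D i q.2) i q
        ∂(JJ μ Z) = ∫ q in Prod.fst ⁻¹' G, (1 - D i q.1 * D i q.2) / 2 ∂(JJ μ Z) := by
        refine integral_congr_ae (Eventually.of_forall fun q => h1 q)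
    _ = 1 / 2 * ((JJ μ Z).real (Prod.fst ⁻¹' G) -
        ∫ q in Prod.fst ⁻¹' G, D i q.1 * D i q.2 ∂(JJ μ Z)) := by
        rw [integral_div, integral_sub (integrable_const _) hprod.integrableOn,
          integral_const]
        simp only [measureReal_restrict_apply_univ, smul_eq_mul, mul_one]
        ring
    _ = 1 / 2 * ∫ x in G, (1 - ((μ[D i | Z.1]) x) ^ 2) ∂μ := by
        rw [h2, h4, integral_sub (integrable_const _) hsq, integral_const]
        simp only [measureReal_restrict_apply_univ, smul_eq_mul, mul_one]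

end

theorem pf_CA (h2 : T_A2) (h3 : T_A3) (hj1 : T_J1) (hj2 : T_J2) (_hj3 : T_J3) (hj4 : T_J4)
    (hnx : T_NXI) (htw : T_TW) (_hnr : T_NR) : T_CA := by
  intro c hk
  obtain ⟨j, hj⟩ : ∃ j, c.k - 1 = j + 1 := ⟨c.k - 2, by omega⟩
  obtain ⟨Z, hZ⟩ : ∃ Z : SA c.X, Z = tow c.μ c.T (c.k - 1) := ⟨_, rfl⟩
  have hRZ : Rt c.T ≤ Z.1 := by
    rw [hZ, hj, tow_succ]
    exact (hnx c.X c.μ c.T (tow c.μ c.T j) c.erg (htw c.X c.μ c.T c.erg j)).2.2
  have hYr : MeasurableSet[Rt c.T] c.Y :=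
    inv_le_rt c.T c.Qpos _ (MeasurableSpace.measurableSet_invariants.2 ⟨c.Ym, c.Yinv⟩)
  have hGr : MeasurableSet[Rt c.T] c.Xg := hYr.inter (c.em measurableSet_Iic)
  have hGm : MeasurableSet c.Xg := rt_le c.T _ hGr
  have hemm : Measurable c.e := c.em.mono (rt_le c.T) le_rfl
  have hDm : ∀ i, Measurable (c.Dt i) := fun i => c.Dm.comp (c.T.measurable.iterate _)
  have hDv : ∀ i x, c.Dt i x = 1 ∨ c.Dt i x = -1 := fun i x => c.Dv _
  have hκ : (0 : ℝ) < κ₀ := by
    unfold κ₀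
    norm_num
  -- the mass of the good points
  have hXg : 0 < c.μ.real c.Xg := by
    have h4 : 4 * κ₀ * c.μ.real (c.Y \ c.Xg) ≤ κ₀ * c.μ.real c.Y := by
      have h5 : ∫ x in c.Y \ c.Xg, (4 * κ₀) ∂c.μ ≤ ∫ x in c.Y \ c.Xg, c.e x ∂c.μ := by
        refine setIntegral_mono_on (integrable_const _).integrableOn ?_
          (c.Ym.diff hGm) fun x hx => ?_
        · exact (Integrable.of_bound hemm.aestronglyMeasurable 1
            (Eventually.of_forall fun x => by
              rw [Real.norm_eq_abs, abs_of_nonneg (c.e0 x).1]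
              exact (c.e0 x).2)).integrableOn
        · by_contra hcon
          exact hx.2 ⟨hx.1, (not_le.1 hcon).le⟩
      have h6 : ∫ x in c.Y \ c.Xg, c.e x ∂c.μ ≤ ∫ x in c.Y, c.e x ∂c.μ := by
        refine setIntegral_mono_set ?_ (Eventually.of_forall fun x => (c.e0 x).1)
          (Eventually.of_forall fun x hx => hx.1)
        exact (Integrable.of_bound hemm.aestronglyMeasurable 1
            (Eventually.of_forall fun x => by
              rw [Real.norm_eq_abs, abs_of_nonneg (c.e0 x).1]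
              exact (c.e0 x).2)).integrableOn
      rw [setIntegral_const, smul_eq_mul] at h5
      have h7 := c.eint
      linarith
    have h8 : c.μ.real c.Y ≤ c.μ.real c.Xg + c.μ.real (c.Y \ c.Xg) := by
      refine (measureReal_mono (show c.Y ⊆ c.Xg ∪ (c.Y \ c.Xg) from fun x hx => ?_)).trans
        (measureReal_union_le _ _)
      by_cases hxG : x ∈ c.Xg
      · exact Or.inl hxG
      · exact Or.inr ⟨hx, hxG⟩
    have h9 := c.Ypos
    by_contra hcon
    have h10 : c.μ.real c.Xg ≤ 0 := not_lt.1 hcon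
    have h11 : κ₀ * (4 * c.μ.real (c.Y \ c.Xg)) ≤ κ₀ * c.μ.real c.Y := by linarith
    have h12 := le_of_mul_le_mul_left h11 hκ
    linarith
  -- conditional expectations
  have hcb : ∀ i, ∀ᵐ x ∂c.μ, |(c.μ[c.Dt i | Z.1]) x| ≤ 1 := fun i =>
    ae_bdd_abs_condExp_of_ae_bdd_abs (R := 1) (Eventually.of_forall fun x => by
      rcases hDv i x with h | h <;> rw [h] <;> norm_num)
  have hDb : ∀ i, ∀ᵐ x ∂c.μ, 1 - ((c.μ[c.Dt i | Z.1]) x) ^ 2 = c.aa i x := by
    intro i
    filter_upwards [hcb i] with x hx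
    unfold CtxE.aa CtxE.Db
    rw [← hZ, min_eq_right (abs_le.1 hx).2, max_eq_right (abs_le.1 hx).1]
  have haam : ∀ i, Measurable (c.aa i) := by
    intro i
    have h4 : Measurable (c.μ[c.Dt i | (tow c.μ c.T (c.k - 1)).1]) :=
      (stronglyMeasurable_condExp.mono (tow c.μ c.T (c.k - 1)).2).measurable
    exact measurable_const.sub ((measurable_const.max (measurable_const.min h4)).pow_const 2)
  have haab : ∀ i x, 0 ≤ c.aa i x ∧ c.aa i x ≤ 1 := by
    intro i x
    unfold CtxE.aa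
    have h4 : -1 ≤ c.Db i x := le_max_left _ _
    have h5 : c.Db i x ≤ 1 := max_le (by norm_num) (min_le_left _ _)
    constructor <;> nlinarith
  have haai : ∀ i, Integrable (c.aa i) c.μ := fun i =>
    Integrable.of_bound (haam i).aestronglyMeasurable 1 (Eventually.of_forall fun x => by
      rw [Real.norm_eq_abs, abs_of_nonneg (haab i x).1]
      exact (haab i x).2)
  have hce : ∀ i, ∀ᵐ x ∂c.μ, 0 ≤ (c.μ[c.aa i | Rt c.T]) x ∧ (c.μ[c.aa i | Rt c.T]) x ≤ 1 := by
    intro i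
    have h4 : ∀ᵐ x ∂c.μ, 0 ≤ (c.μ[c.aa i | Rt c.T]) x :=
      condExp_nonneg (Eventually.of_forall fun x => (haab i x).1)
    have h5 : c.μ[c.aa i | Rt c.T] ≤ᵐ[c.μ] c.μ[fun _ => (1 : ℝ) | Rt c.T] :=
      condExp_mono (haai i) (integrable_const _) (Eventually.of_forall fun x => (haab i x).2)
    rw [condExp_const (rt_le c.T)] at h5
    filter_upwards [h4, h5] with x h6 h7
    exact ⟨h6, h7⟩
  have hsum : ∀ᵐ x ∂c.μ, x ∈ c.Xg → ∑ i, (c.μ[c.aa i | Rt c.T]) x ≤ 17 * κ₀ := by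
    filter_upwards [ae_all_iff.2 hce, ae_all_iff.2 fun I => h2 c hk I] with x h4 h5 h6
    refine h3 c.k (fun i => (c.μ[c.aa i | Rt c.T]) x) h4 fun I => ?_
    have h7 := h5 I h6.1
    have h8 := h6.2
    unfold CtxE.VI at h7
    linarith
  -- the integral of the mismatch
  have hM := mis_int hj1 hj2 c.μ c.T Z hRZ c.Dt hDm hDv hGr
  have hM2 : ∑ i, ∫ x in c.Xg, (1 - ((c.μ[c.Dt i | Z.1]) x) ^ 2) ∂c.μ ≤
      17 * κ₀ * c.μ.real c.Xg := by
    have h4 : ∀ i, ∫ x in c.Xg, (1 - ((c.μ[c.Dt i | Z.1]) x) ^ 2) ∂c.μ =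
        ∫ x in c.Xg, (c.μ[c.aa i | Rt c.T]) x ∂c.μ := by
      intro i
      rw [setIntegral_condExp (rt_le c.T) (haai i) hGr]
      exact integral_congr_ae (ae_restrict_of_ae (hDb i))
    rw [Finset.sum_congr rfl fun i _ => h4 i, ← integral_finsetSum _ fun i _ =>
      integrable_condExp.integrableOn]
    refine (setIntegral_mono_on_ae (integrable_finsetSum _ fun i _ =>
      integrable_condExp).integrableOn (integrable_const (17 * κ₀)).integrableOn hGm
        hsum).trans (le_of_eq ?_)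
    rw [setIntegral_const, smul_eq_mul, mul_comm]
  obtain ⟨hJ, hfst, -, -⟩ := hj2 c.X c.μ Z
  rw [← hZ]
  by_contra hcon
  have hzero : (JJ c.μ Z).real {q | q.1 ∈ c.Xg ∧ q.2 ∈ c.Xg ∧
      Mis (JJ c.μ Z) (Rt (TT c.T)) c.D1 c.D2 q ≤ 1 / 2} = 0 :=
    le_antisymm (not_lt.1 hcon) measureReal_nonneg
  have hz2 : (JJ c.μ Z) {q | q.1 ∈ c.Xg ∧ q.2 ∈ c.Xg ∧
      Mis (JJ c.μ Z) (Rt (TT c.T)) c.D1 c.D2 q ≤ 1 / 2} = 0 :=
    (measureReal_eq_zero_iff (measure_ne_top _ _)).1 hzero
  have hae : ∀ᵐ q ∂(JJ c.μ Z), q ∈ Prod.fst ⁻¹' c.Xg →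
      (1 / 2 : ℝ) ≤ Mis (JJ c.μ Z) (Rt (TT c.T)) c.D1 c.D2 q := by
    filter_upwards [measure_eq_zero_iff_ae_notMem.1 hz2, (hj4 c.X c.μ Z).2.1 c.Xg (hRZ _ hGr)]
      with q h4 h5 h6
    by_contra h7
    exact h4 ⟨h6, h5.1 h6, (not_le.1 h7).le⟩
  have hMi : Integrable (Mis (JJ c.μ Z) (Rt (TT c.T)) c.D1 c.D2) (JJ c.μ Z) :=
    integrable_finsetSum _ fun i _ => integrable_condExp
  have hlow : ∫ q in Prod.fst ⁻¹' c.Xg, (1 / 2 : ℝ) ∂(JJ c.μ Z) ≤
      ∫ q in Prod.fst ⁻¹' c.Xg, Mis (JJ c.μ Z) (Rt (TT c.T)) c.D1 c.D2 q ∂(JJ c.μ Z) :=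
    setIntegral_mono_on_ae (integrable_const _).integrableOn hMi.integrableOn
      (measurable_fst hGm) hae
  have h4 : (JJ c.μ Z).real (Prod.fst ⁻¹' c.Xg) = c.μ.real c.Xg := by
    unfold Measure.real
    rw [hfst.measure_preimage hGm.nullMeasurableSet]
  have hM' : ∫ q in Prod.fst ⁻¹' c.Xg, Mis (JJ c.μ Z) (Rt (TT c.T)) c.D1 c.D2 q ∂(JJ c.μ Z) =
      1 / 2 * ∑ i, ∫ x in c.Xg, (1 - ((c.μ[c.Dt i | Z.1]) x) ^ 2) ∂c.μ := hM
  rw [setIntegral_const, smul_eq_mul, h4, hM'] at hlow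
  have h5 : (17 : ℝ) * κ₀ < 1 := by
    unfold κ₀
    norm_num
  nlinarith

end Pool.Agent.H93.AG
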