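import Pool.Agent.H24.AG.Targets

set_option autoImplicit false

open MeasureTheory ProbabilityTheory Filter Topology Finset
open scoped Nat ComplexConjugate

namespace Pool.Agent.H93.AG

open Pool.Agent.H24.AG
open Pool.Agent.H67.AG (Inv Rt Av T_ME)

/-- expansion of the square -/
theorem her_sq {Y : Type} [MeasurableSpace Y] (m : Measure Y) [IsFiniteMeasure m]
    (F : ℕ → Y → ℂ) (hF : ∀ n, Measurable (F n)) (hF1 : ∀ n y, ‖F n y‖ ≤ 1) (s : Finset ℕ)
    (a : ℕ → ℂ) :
    ((∫ y, ‖∑ n ∈ s, a n * F n y‖ ^ 2 ∂m : ℝ) : ℂ) =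
      ∑ n ∈ s, ∑ n' ∈ s, a n * conj (a n') * ∫ y, F n y * conj (F n' y) ∂m := by
  rw [← integral_complex_ofReal]
  have e : (fun y => ((‖∑ n ∈ s, a n * F n y‖ ^ 2 : ℝ) : ℂ)) =
      fun y => ∑ n ∈ s, ∑ n' ∈ s, a n * conj (a n') * (F n y * conj (F n' y)) := by
    funext y
    have h1 : ((‖∑ n ∈ s, a n * F n y‖ ^ 2 : ℝ) : ℂ) =
        (∑ n ∈ s, a n * F n y) * conj (∑ n ∈ s, a n * F n y) := by
      rw [Complex.mul_conj, Complex.normSq_eq_norm_sq]
    rw [h1, map_sum, Finset.sum_mul_sum]
    apply Finset.sum_congr rfl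
    intro n _
    apply Finset.sum_congr rfl
    intro n' _
    rw [map_mul]
    ring
  have hint : ∀ n n', Integrable (fun y => F n y * conj (F n' y)) m := by
    intro n n'
    refine Integrable.of_bound (C := 1) ?_ ?_
    · exact ((hF n).mul (Complex.continuous_conj.measurable.comp (hF n'))).aestronglyMeasurable
    · filter_upwards with y
      rw [norm_mul, RCLike.norm_conj]
      exact mul_le_one₀ (hF1 n y) (norm_nonneg _) (hF1 n' y)
  rw [e, integral_finsetSum]
  · apply Finset.sum_congr rfl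
    intro n _
    rw [integral_finsetSum]
    · apply Finset.sum_congr rfl
      intro n' _
      rw [integral_const_mul]
    · intro n' _
      exact (hint n n').const_mul _
  · intro n _
    apply integrable_finsetSum
    intro n' _
    exact (hint n n').const_mul _

theorem her_geo (x : ℝ) (hx0 : 0 ≤ x) (hx1 : x < 1) (hx : x ≠ 0) :
    Tendsto (fun N : ℕ => ‖∑ n ∈ range N, (1 / (N : ℂ)) *
      Complex.exp (2 * Real.pi * Complex.I * ((x : ℝ) * n))‖ ^ 2) atTop (𝓝 0) := by
  set z : ℂ := Complex.exp (2 * Real.pi * Complex.I * (x : ℝ)) with hz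
  have hz1 : z ≠ 1 := by
    intro h
    rw [hz, Complex.exp_eq_one_iff] at h
    obtain ⟨n, hn⟩ := h
    have h2 : (x : ℂ) = (n : ℂ) := by
      have h3 : (2 * Real.pi * Complex.I : ℂ) ≠ 0 := Complex.two_pi_I_ne_zero
      apply mul_left_cancel₀ h3
      rw [hn]
      ring
    have h4 : x = (n : ℝ) := by exact_mod_cast h2
    rw [h4] at hx0 hx1 hx
    have h5 : (n : ℝ) < 1 := hx1
    have h6 : n < 1 := by exact_mod_cast h5
    have h7 : 0 ≤ n := by exact_mod_cast hx0
    have h8 : n = 0 := by omega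
    apply hx
    rw [h8]
    simp
  have hzn : ‖z‖ = 1 := by
    rw [hz]
    have : (2 * Real.pi * Complex.I * (x : ℝ) : ℂ) = ((2 * Real.pi * x : ℝ) : ℂ) * Complex.I := by
      push_cast
      ring
    rw [this, Complex.norm_exp_ofReal_mul_I]
  have hpos : 0 < ‖z - 1‖ := norm_pos_iff.2 (sub_ne_zero.2 hz1)
  have hb : ∀ N : ℕ, ‖∑ n ∈ range N, (1 / (N : ℂ)) *
      Complex.exp (2 * Real.pi * Complex.I * ((x : ℝ) * n))‖ ^ 2 ≤
        (2 / ‖z - 1‖ * (1 / (N : ℝ))) ^ 2 := by
    intro N
    apply pow_le_pow_left₀ (norm_nonneg _)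
    rw [← Finset.mul_sum]
    have e : ∑ n ∈ range N, Complex.exp (2 * Real.pi * Complex.I * ((x : ℝ) * n)) =
        ∑ n ∈ range N, z ^ n := by
      apply Finset.sum_congr rfl
      intro n _
      rw [hz, ← Complex.exp_nat_mul]
      ring_nf
    rw [e, geom_sum_eq hz1, norm_mul, norm_div (z ^ N - 1), mul_comm]
    have h1 : ‖z ^ N - 1‖ ≤ 2 := by
      refine (norm_sub_le _ _).trans ?_
      rw [norm_pow, hzn]
      norm_num
    have h2 : ‖(1 / (N : ℂ))‖ = 1 / (N : ℝ) := by
      rw [norm_div, norm_one, Complex.norm_natCast]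
    rw [h2]
    apply mul_le_mul_of_nonneg_right _ (by positivity)
    exact div_le_div_of_nonneg_right h1 hpos.le
  have hlim : Tendsto (fun N : ℕ => (2 / ‖z - 1‖ * (1 / (N : ℝ))) ^ 2) atTop (𝓝 0) := by
    have h1 : Tendsto (fun N : ℕ => 1 / (N : ℝ)) atTop (𝓝 0) := tendsto_one_div_atTop_nhds_zero_nat
    have h2 := (h1.const_mul (2 / ‖z - 1‖)).pow 2
    simpa using h2
  exact squeeze_zero (fun N => by positivity) hb hlim

theorem pf_HER (h : T_VHG) (hme : T_ME) : Pool.Agent.H67.AG.T_HER := by
  intro Ω _ P _ T b f hT hf hf1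
  -- correlations
  set r : ℤ → ℝ := fun n => ∫ ω, f (zp T ((b : ℤ) * n) ω) * f ω ∂P with hr
  have hzm : ∀ n, Measurable fun ω => f (zp T n ω) := fun n => hf.comp (measurable_zp T n)
  have hcorr : ∀ i j : ℤ, ∫ ω, f (zp T ((b : ℤ) * i) ω) * f (zp T ((b : ℤ) * j) ω) ∂P =
      r (i - j) := by
    intro i j
    have h1 := (mp_zp hT ((b : ℤ) * j)).map_eq
    have h2 : r (i - j) = ∫ ω, f (zp T ((b : ℤ) * (i - j)) ω) * f ω
        ∂(P.map (zp T ((b : ℤ) * j))) := by rw [h1]
    have h3 := integral_map (μ := P) (measurable_zp T ((b : ℤ) * j)).aemeasurable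
      (f := fun ω => f (zp T ((b : ℤ) * (i - j)) ω) * f ω) ((hzm _).mul hf).aestronglyMeasurable
    rw [h2, h3]
    apply integral_congr_ae
    filter_upwards with ω
    rw [← zp_add]
    have : (b : ℤ) * (i - j) + (b : ℤ) * j = (b : ℤ) * i := by ring
    rw [this]
  have hint : ∀ m n : ℤ, Integrable (fun ω => f (zp T m ω) * f (zp T n ω)) P := by
    intro m n
    refine Integrable.of_bound (C := 1) ((hzm m).mul (hzm n)).aestronglyMeasurable ?_
    filter_upwards with ω
    rw [Real.norm_eq_abs, abs_mul]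
    exact mul_le_one₀ (hf1 _) (abs_nonneg _) (hf1 _)
  have hPD : PDf r := by
    refine ⟨fun n => ?_, fun s c => ?_⟩
    · have h1 := hcorr 0 n
      have h2 := hcorr n 0
      rw [zero_sub] at h1
      rw [sub_zero] at h2
      rw [← h1, ← h2]
      apply integral_congr_ae
      filter_upwards with ω
      ring
    · have e : ∑ i ∈ s, ∑ j ∈ s, c i * c j * r (i - j) =
          ∫ ω, (∑ i ∈ s, c i * f (zp T ((b : ℤ) * i) ω)) ^ 2 ∂P := by
        have e1 : (fun ω => (∑ i ∈ s, c i * f (zp T ((b : ℤ) * i) ω)) ^ 2) =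
            fun ω => ∑ i ∈ s, ∑ j ∈ s, c i * c j *
              (f (zp T ((b : ℤ) * i) ω) * f (zp T ((b : ℤ) * j) ω)) := by
          funext ω
          rw [sq, Finset.sum_mul_sum]
          apply Finset.sum_congr rfl
          intro i _
          apply Finset.sum_congr rfl
          intro j _
          ring
        rw [e1, integral_finsetSum]
        · apply Finset.sum_congr rfl
          intro i _
          rw [integral_finsetSum]
          · apply Finset.sum_congr rfl
            intro j _
            rw [integral_const_mul, hcorr]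
          · intro j _
            exact (hint _ _).const_mul _
        · intro i _
          apply integrable_finsetSum
          intro j _
          exact (hint _ _).const_mul _
      rw [e]
      apply integral_nonneg
      intro ω
      positivity
  obtain ⟨ν, hν, hνr⟩ := h r hPD
  have hA : ∀ (s : Finset ℕ) (a : ℕ → ℂ), ∫ ω, ‖∑ n ∈ s, a n * (f (T^[b * n] ω) : ℂ)‖ ^ 2 ∂P =
      ∫ x, ‖∑ n ∈ s, a n * Complex.exp (2 * Real.pi * Complex.I * ((x : ℝ) * n))‖ ^ 2 ∂ν := by
    intro s a
    have h1 := her_sq P (fun n ω => ((f (T^[b * n] ω) : ℝ) : ℂ))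
      (fun n => Complex.measurable_ofReal.comp (hf.comp (T.measurable.iterate _)))
      (fun n ω => by
        rw [Complex.norm_real]
        exact hf1 _) s a
    have h2 := her_sq ν (fun n (x : Set.Ico (0 : ℝ) 1) =>
        Complex.exp (2 * Real.pi * Complex.I * ((x : ℝ) * n)))
      (fun n => by fun_prop)
      (fun n x => by
        have : (2 * Real.pi * Complex.I * (((x : ℝ) : ℂ) * n) : ℂ) =
          ((2 * Real.pi * ((x : ℝ) * n) : ℝ) : ℂ) * Complex.I := by
          push_cast
          ring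
        rw [this, Complex.norm_exp_ofReal_mul_I]) s a
    have h3 : ∀ n n' : ℕ, ∫ ω, ((f (T^[b * n] ω) : ℝ) : ℂ) * conj ((f (T^[b * n'] ω) : ℝ) : ℂ) ∂P =
        ∫ x : Set.Ico (0 : ℝ) 1, Complex.exp (2 * Real.pi * Complex.I * ((x : ℝ) * n)) *
          conj (Complex.exp (2 * Real.pi * Complex.I * ((x : ℝ) * n'))) ∂ν := by
      intro n n'
      have e1 : ∫ ω, ((f (T^[b * n] ω) : ℝ) : ℂ) * conj ((f (T^[b * n'] ω) : ℝ) : ℂ) ∂P =
          ((r ((n : ℤ) - n') : ℝ) : ℂ) := by
        rw [← hcorr, ← integral_complex_ofReal]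
        apply integral_congr_ae
        filter_upwards with ω
        have e2 : ∀ k : ℕ, zp T ((b : ℤ) * (k : ℤ)) ω = T^[b * k] ω := by
          intro k
          have := zp_natCast T (b * k) ω
          push_cast at this
          exact this
        rw [e2, e2, Complex.conj_ofReal]
        push_cast
        rfl
      have e3 : ∫ x : Set.Ico (0 : ℝ) 1, Complex.exp (2 * Real.pi * Complex.I * ((x : ℝ) * n)) *
          conj (Complex.exp (2 * Real.pi * Complex.I * ((x : ℝ) * n'))) ∂ν =
          ((r ((n : ℤ) - n') : ℝ) : ℂ) := by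
        rw [← hνr]
        apply integral_congr_ae
        filter_upwards with x
        rw [← Complex.exp_conj, ← Complex.exp_add, ee]
        congr 1
        simp only [map_mul, Complex.conj_ofReal, Complex.conj_I, map_natCast, map_ofNat]
        push_cast
        ring
      rw [e1, e3]
    have h4 : ((∫ ω, ‖∑ n ∈ s, a n * (f (T^[b * n] ω) : ℂ)‖ ^ 2 ∂P : ℝ) : ℂ) =
        ((∫ x, ‖∑ n ∈ s, a n * Complex.exp (2 * Real.pi * Complex.I *
          ((x : ℝ) * n))‖ ^ 2 ∂ν : ℝ) : ℂ) := by
      rw [h1, h2]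
      apply Finset.sum_congr rfl
      intro n _
      apply Finset.sum_congr rfl
      intro n' _
      rw [h3]
    exact_mod_cast h4
  refine ⟨ν, hν, hA, ?_⟩
  -- the atom at zero
  have hlim1 : Tendsto (fun N : ℕ => ∫ x, ‖∑ n ∈ range N, (1 / (N : ℂ)) *
      Complex.exp (2 * Real.pi * Complex.I * ((x : ℝ) * n))‖ ^ 2 ∂ν) atTop
      (𝓝 (∫ x, Set.indicator {x : Set.Ico (0 : ℝ) 1 | (x : ℝ) = 0} (fun _ => (1 : ℝ)) x ∂ν)) := by
    apply tendsto_integral_of_dominated_convergence (fun _ => (1 : ℝ))
    · intro N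
      apply Measurable.aestronglyMeasurable
      fun_prop
    · exact integrable_const _
    · intro N
      filter_upwards with x
      rw [Real.norm_eq_abs, abs_of_nonneg (by positivity)]
      have : ‖∑ n ∈ range N, (1 / (N : ℂ)) *
          Complex.exp (2 * Real.pi * Complex.I * ((x : ℝ) * n))‖ ≤ 1 := by
        refine (norm_sum_le _ _).trans ?_
        have h1 : ∀ n ∈ range N, ‖(1 / (N : ℂ)) *
          Complex.exp (2 * Real.pi * Complex.I * ((x : ℝ) * n))‖ = 1 / (N : ℝ) := by
          intro n _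
          have : (2 * Real.pi * Complex.I * (((x : ℝ) : ℂ) * n) : ℂ) =
            ((2 * Real.pi * ((x : ℝ) * n) : ℝ) : ℂ) * Complex.I := by
            push_cast
            ring
          rw [norm_mul, this, Complex.norm_exp_ofReal_mul_I, mul_one, norm_div, norm_one,
            Complex.norm_natCast]
        rw [Finset.sum_congr rfl h1, Finset.sum_const, card_range, nsmul_eq_mul]
        rcases Nat.eq_zero_or_pos N with h0 | h0
        · simp [h0]
        · have : (N : ℝ) ≠ 0 := by positivity
          rw [mul_one_div_cancel this]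
      exact pow_le_one₀ (norm_nonneg _) this
    · filter_upwards with x
      by_cases hx : (x : ℝ) = 0
      · rw [Set.indicator_of_mem (by exact hx)]
        apply tendsto_const_nhds.congr'
        filter_upwards [eventually_gt_atTop 0] with N hN
        have hN' : (N : ℂ) ≠ 0 := by
          exact_mod_cast hN.ne'
        rw [hx]
        simp [hN']
      · rw [Set.indicator_of_notMem (by exact hx)]
        exact her_geo x x.2.1 x.2.2 hx
  have hms : MeasurableSet {x : Set.Ico (0 : ℝ) 1 | (x : ℝ) = 0} :=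
    measurable_subtype_coe (measurableSet_singleton (0 : ℝ))
  have hind : ∫ x, Set.indicator {x : Set.Ico (0 : ℝ) 1 | (x : ℝ) = 0} (fun _ => (1 : ℝ)) x ∂ν =
      ν.real {x | (x : ℝ) = 0} := by
    rw [integral_indicator hms, setIntegral_const, smul_eq_mul, mul_one]
  rw [hind] at hlim1
  have hAv : ∀ N : ℕ, ∫ x, ‖∑ n ∈ range N, (1 / (N : ℂ)) *
      Complex.exp (2 * Real.pi * Complex.I * ((x : ℝ) * n))‖ ^ 2 ∂ν =
      ∫ ω, (Av T b N f ω) ^ 2 ∂P := by
    intro N
    rw [← hA (range N) (fun _ => 1 / (N : ℂ))]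
    apply integral_congr_ae
    filter_upwards with ω
    have e : ∑ n ∈ range N, (1 / (N : ℂ)) * (f (T^[b * n] ω) : ℂ) = ((Av T b N f ω : ℝ) : ℂ) := by
      rw [← Finset.mul_sum, Av]
      push_cast
      ring
    rw [e, Complex.norm_real, Real.norm_eq_abs, sq_abs]
  simp_rw [hAv] at hlim1
  -- the limit of the averages
  set E : Ω → ℝ := P[f | Inv T b] with hE
  have hInv : Inv T b ≤ (inferInstance : MeasurableSpace Ω) := MeasurableSpace.invariants_le _
  have hfi : Integrable f P := by
    refine Integrable.of_bound (C := 1) hf.aestronglyMeasurable ?_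
    filter_upwards with ω
    exact hf1 ω
  have hE1 : ∀ᵐ ω ∂P, |E ω| ≤ 1 := by
    apply ae_bdd_abs_condExp_of_ae_bdd_abs (R := 1)
    filter_upwards with ω
    exact hf1 ω
  have hEm : AEStronglyMeasurable E P := (stronglyMeasurable_condExp.mono hInv).aestronglyMeasurable
  have hAvm : ∀ N, Measurable (Av T b N f) := by
    intro N
    unfold Av
    apply Measurable.div_const
    apply Finset.measurable_sum
    intro n _
    exact hf.comp (T.measurable.iterate _)
  have hAv1 : ∀ N ω, |Av T b N f ω| ≤ 1 := by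
    intro N ω
    unfold Av
    rw [abs_div, Nat.abs_cast]
    apply div_le_one_of_le₀ _ (Nat.cast_nonneg _)
    refine (abs_sum_le_sum_abs _ _).trans ?_
    refine (Finset.sum_le_sum fun n _ => hf1 (T^[b * n] ω)).trans ?_
    simp
  have hlim2 : Tendsto (fun N : ℕ => ∫ ω, (Av T b N f ω) ^ 2 ∂P) atTop (𝓝 (∫ ω, E ω ^ 2 ∂P)) := by
    have hm := hme Ω P T b f hT hf hf1
    rw [Metric.tendsto_atTop] at hm ⊢
    intro ε hε
    obtain ⟨N₀, hN₀⟩ := hm (ε ^ 2 / 4) (by positivity)
    refine ⟨N₀, fun N hN => ?_⟩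
    have h1 := hN₀ N hN
    rw [Real.dist_eq, sub_zero, abs_of_nonneg (integral_nonneg fun ω => by positivity)] at h1
    rw [Real.dist_eq]
    have i1 : Integrable (fun ω => (Av T b N f ω) ^ 2) P := by
      refine Integrable.of_bound (C := 1) ((hAvm N).pow_const 2).aestronglyMeasurable ?_
      filter_upwards with ω
      rw [norm_pow]
      exact pow_le_one₀ (norm_nonneg _) (hAv1 N ω)
    have i2 : Integrable (fun ω => (E ω) ^ 2) P := by
      refine Integrable.of_bound (C := 1) (hEm.pow 2) ?_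
      filter_upwards [hE1] with ω hω
      rw [norm_pow]
      exact pow_le_one₀ (norm_nonneg _) hω
    have i3 : Integrable (fun ω => (Av T b N f ω - E ω) ^ 2) P := by
      refine Integrable.of_bound (C := 4)
        (((hAvm N).aestronglyMeasurable.sub hEm).pow 2) ?_
      filter_upwards [hE1] with ω hω
      have h2 := hAv1 N ω
      rw [Real.norm_eq_abs, abs_of_nonneg (by positivity)]
      have h3 : |Av T b N f ω - E ω| ≤ 2 := by
        refine (abs_sub _ _).trans ?_
        linarith
      rw [← sq_abs]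
      nlinarith [abs_nonneg (Av T b N f ω - E ω)]
    rw [← integral_sub i1 i2]
    have h4 : |∫ ω, ((Av T b N f ω) ^ 2 - E ω ^ 2) ∂P| ≤
        ∫ ω, (ε / 2 + 2 / ε * (Av T b N f ω - E ω) ^ 2) ∂P := by
      refine (abs_integral_le_integral_abs).trans ?_
      apply integral_mono_ae (i1.sub i2).abs
      · exact (integrable_const _).add (i3.const_mul _)
      · filter_upwards [hE1] with ω hω
        have h2 := hAv1 N ω
        set u := Av T b N f ω
        set v := E ω
        have h5 : |u ^ 2 - v ^ 2| ≤ 2 * |u - v| := by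
          have : u ^ 2 - v ^ 2 = (u + v) * (u - v) := by ring
          rw [this, abs_mul]
          apply mul_le_mul_of_nonneg_right _ (abs_nonneg _)
          refine (abs_add_le _ _).trans ?_
          linarith
        refine h5.trans ?_
        have h6 : 0 ≤ (|u - v| - ε / 2) ^ 2 := sq_nonneg _
        have h7 : (u - v) ^ 2 = |u - v| ^ 2 := (sq_abs _).symm
        rw [h7]
        have h8 : 2 / ε * |u - v| ^ 2 = (2 * |u - v| ^ 2) / ε := by ring
        have h9 : 2 * |u - v| - ε / 2 ≤ (2 * |u - v| ^ 2) / ε := by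
          rw [le_div_iff₀ hε]
          nlinarith
        linarith
    refine lt_of_le_of_lt h4 ?_
    rw [integral_add (integrable_const _) (i3.const_mul _), integral_const_mul]
    simp only [integral_const, probReal_univ, smul_eq_mul, one_mul]
    have h10 : 2 / ε * ∫ ω, (Av T b N f ω - E ω) ^ 2 ∂P < 2 / ε * (ε ^ 2 / 4) := by
      apply mul_lt_mul_of_pos_left h1
      positivity
    have h11 : 2 / ε * (ε ^ 2 / 4) = ε / 2 := by
      field_simp
      norm_num
    linarith
  exact tendsto_nhds_unique hlim1 hlim2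

end Pool.Agent.H93.AG
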