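import Pool.Agent.H67.AG.T4

/-!
PE: a power of the map nearly preserves the classes.
-/

set_option autoImplicit false

open MeasureTheory ProbabilityTheory Filter Topology Finset
open scoped Nat ENNReal

namespace Pool.Agent.H93.AG

open Pool.Agent.H67.AG

section

variable {X : Type} [MeasurableSpace X] {μ : Measure X} [IsProbabilityMeasure μ]

theorem two_right {A B B' : Set X} (h : Disjoint B B') :
    μ.real A ≤ μ.real (symmDiff A B) + μ.real (symmDiff A B') := by
  have hsub : A ⊆ symmDiff A B ∪ symmDiff A B' := by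
    intro x hx
    by_cases h1 : x ∈ B
    · exact Or.inr (Or.inl ⟨hx, fun h2 => Set.disjoint_left.1 h h1 h2⟩)
    · exact Or.inl (Or.inl ⟨hx, h1⟩)
  exact (measureReal_mono hsub).trans (measureReal_union_le _ _)

theorem two_left {A A' B : Set X} (h : Disjoint A A') :
    μ.real B ≤ μ.real (symmDiff A B) + μ.real (symmDiff A' B) := by
  rw [symmDiff_comm A B, symmDiff_comm A' B]
  exact two_right h

theorem three {A B B' B'' : Set X} (h : Disjoint B' B'') :
    μ.real A ≤ μ.real (symmDiff A B) + μ.real (symmDiff B B') + μ.real (symmDiff A B'') := by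
  have hsub : A ⊆ symmDiff A B ∪ symmDiff B B' ∪ symmDiff A B'' := by
    intro x hx
    by_cases h1 : x ∈ B
    · by_cases h2 : x ∈ B'
      · exact Or.inr (Or.inl ⟨hx, fun h3 => Set.disjoint_left.1 h h2 h3⟩)
      · exact Or.inl (Or.inr (Or.inl ⟨h1, h2⟩))
    · exact Or.inl (Or.inl (Or.inl ⟨hx, h1⟩))
  refine (measureReal_mono hsub).trans ((measureReal_union_le _ _).trans ?_)
  exact add_le_add (measureReal_union_le _ _) le_rfl

end

theorem pf_PE : T_PE := by
  intro X _ μ _ T W r C c₀ δ hT hc hδ0 hδ hC hdis hex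
  have hpre : ∀ (n : ℕ) (A : Set X), MeasurableSet A → μ.real (T^[n] ⁻¹' A) = μ.real A := by
    intro n A hA
    unfold Measure.real
    rw [(hT.iterate n).measure_preimage hA.nullMeasurableSet]
  -- uniqueness
  have huniq : ∀ (n : ℕ) (a b b' : Fin r), μ.real (symmDiff (C a) (T^[W * n] ⁻¹' C b)) ≤ δ →
      μ.real (symmDiff (C a) (T^[W * n] ⁻¹' C b')) ≤ δ → b = b' := by
    intro n a b b' h1 h2
    by_contra hne
    have h3 : Disjoint (T^[W * n] ⁻¹' C b) (T^[W * n] ⁻¹' C b') :=
      Disjoint.preimage _ (hdis hne)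
    have h4 := two_right (μ := μ) (A := C a) h3
    have h5 := (hC a).2
    linarith
  have hinj' : ∀ (n : ℕ) (a a' b : Fin r), μ.real (symmDiff (C a) (T^[W * n] ⁻¹' C b)) ≤ δ →
      μ.real (symmDiff (C a') (T^[W * n] ⁻¹' C b)) ≤ δ → a = a' := by
    intro n a a' b h1 h2
    by_contra hne
    have h4 := two_left (μ := μ) (B := T^[W * n] ⁻¹' C b) (hdis hne)
    have h5 := (hC b).2
    rw [hpre _ _ (hC b).1] at h4
    linarith
  choose π hπ using hex
  have hzero : ∀ a, π 0 a = a := by
    intro a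
    refine huniq 0 a _ _ (hπ 0 a) ?_
    rw [mul_zero, Function.iterate_zero, Set.preimage_id, symmDiff_self]
    simpa using hδ0
  have hadd : ∀ n a, π (n + 1) a = π 1 (π n a) := by
    intro n a
    by_contra hne
    have h1 := hπ n a
    have h2 := hπ 1 (π n a)
    have h3 := hπ (n + 1) a
    have h4 : T^[W * n] ⁻¹' (T^[W * 1] ⁻¹' C (π 1 (π n a))) =
        T^[W * (n + 1)] ⁻¹' C (π 1 (π n a)) := by
      rw [← Set.preimage_comp, ← Function.iterate_add, mul_add, add_comm (W * 1)]
    have h5 : μ.real (symmDiff (T^[W * n] ⁻¹' C (π n a))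
        (T^[W * (n + 1)] ⁻¹' C (π 1 (π n a)))) ≤ δ := by
      rw [← h4, ← Set.preimage_symmDiff, hpre]
      · exact h2
      · exact (hC _).1.symmDiff ((T.measurable.iterate _) (hC _).1)
    have h6 : Disjoint (T^[W * (n + 1)] ⁻¹' C (π 1 (π n a)))
        (T^[W * (n + 1)] ⁻¹' C (π (n + 1) a)) :=
      Disjoint.preimage _ (hdis (Ne.symm hne))
    have h7 := three (μ := μ) (A := C a) (B := T^[W * n] ⁻¹' C (π n a)) h6
    have h8 := (hC a).2
    linarith
  have hinj : Function.Injective (π 1) := by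
    intro a a' h
    refine hinj' 1 a a' (π 1 a) (hπ 1 a) ?_
    rw [h]
    exact hπ 1 a'
  let p : Equiv.Perm (Fin r) := Equiv.ofBijective (π 1) (Finite.injective_iff_bijective.1 hinj)
  have hp : ∀ a, p a = π 1 a := fun a => rfl
  have hpow : ∀ n a, π n a = (p ^ n) a := by
    intro n
    induction n with
    | zero =>
      intro a
      rw [hzero, pow_zero]
      rfl
    | succ n ih =>
      intro a
      rw [hadd, ih, pow_succ', Equiv.Perm.mul_apply, hp]
  have hcard : p ^ (r !) = 1 := by
    have h := pow_card_eq_one (x := p)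
    rwa [Fintype.card_perm, Fintype.card_fin] at h
  intro n a
  have h1 := hπ (r ! * n) a
  have h2 : π (r ! * n) a = a := by
    rw [hpow, pow_mul, hcard, one_pow]
    rfl
  rw [h2, ← mul_assoc] at h1
  exact h1

end Pool.Agent.H93.AG
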