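import Pool.Agent.H24.AG.Targets

set_option autoImplicit false

open MeasureTheory ProbabilityTheory Filter Topology Finset
open scoped Nat

namespace Pool.Agent.H93.AG

open Pool.Agent.H24.AG
open Pool.Agent.H24.T2 (Pset box cub)

theorem pf_V (h1 : T_VVQ) (h2 : T_VVI) : Pool.Agent.H67.AG.T_V := by
  intro w W ph hw hW hwW hph ε hε
  by_cases hirr : Irrational ph
  · obtain ⟨m₀, hm₀⟩ := h2 W ph hW hirr ε hε
    refine ⟨m₀, fun m hm => ?_⟩
    have h := hm₀ m hm
    unfold ee at h
    have e : (∑ p ∈ Pset W m, Complex.exp (2 * Real.pi * Complex.I * (ph * ((p - 1) / W : ℕ)))) =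
        ∑ p ∈ Pset W m, Complex.exp (2 * Real.pi * Complex.I *
          ((ph * (((p - 1) / W : ℕ) : ℝ) : ℝ) : ℂ)) := by
      apply Finset.sum_congr rfl
      intro p _
      push_cast
      rfl
    rw [e]
    refine h.trans ?_
    apply mul_le_mul_of_nonneg_right _ (Nat.cast_nonneg _)
    have : (0 : ℝ) ≤ 1 / w := by positivity
    linarith
  · unfold Irrational at hirr
    rw [not_not] at hirr
    obtain ⟨r, hr⟩ := hirr
    have hq : 2 ≤ r.den := by
      rcases Nat.lt_or_ge r.den 2 with h | h
      · exfalso
        have hd : r.den = 1 := by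
          have := r.den_pos
          omega
        apply hph r.num
        rw [← hr]
        have := Rat.den_eq_one_iff r |>.1 hd
        rw [← this]
        push_cast
        simp
      · exact h
    have hcop : IsCoprime r.num (r.den : ℤ) := by
      rw [Int.isCoprime_iff_gcd_eq_one]
      have := r.reduced
      rw [Nat.Coprime] at this
      simpa [Int.gcd] using this
    obtain ⟨m₀, hm₀⟩ := h1 w W r.den r.num hw hW hwW hq hcop ε hε
    refine ⟨m₀, fun m hm => ?_⟩
    have h := hm₀ m hm
    unfold ee at h
    have e : (∑ p ∈ Pset W m, Complex.exp (2 * Real.pi * Complex.I * (ph * ((p - 1) / W : ℕ)))) =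
        ∑ p ∈ Pset W m, Complex.exp (2 * Real.pi * Complex.I *
          (((r.num : ℝ) / (r.den : ℝ) * (((p - 1) / W : ℕ) : ℝ) : ℝ) : ℂ)) := by
      apply Finset.sum_congr rfl
      intro p _
      have hph2 : ph = (r.num : ℝ) / (r.den : ℝ) := by
        rw [← hr]
        exact_mod_cast (Rat.num_div_den r).symm
      rw [hph2]
      push_cast
      rfl
    rw [e]
    exact h

end Pool.Agent.H93.AG
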