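import Pool.Agent.H38.AG.Targets
import Pool.Agent.H86.AB.RG2

/-! RGS: the reduced triples of moderate height. -/

set_option autoImplicit false

open Pool.Agent.H38.RB Pool.Agent.H38.PS Pool.Agent.H82.RD Pool.Agent.H38.AB Pool.Agent.H38.AG

namespace Pool.Agent.H93.AG

theorem log16 : (1 : ℝ) < Real.log 16 := by
  have h : Real.log 16 = 4 * Real.log 2 := by
    rw [show (16 : ℝ) = 2 ^ 4 by norm_num, Real.log_pow]
    norm_num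
  rw [h]
  linarith [Real.log_two_gt_d9]

theorem rd_mono {X ρ ρ' : ℝ} (hX : 16 ≤ X) (hρ : ρ ≤ ρ') {x : Fin 3 → ℤ} (hx : x ∈ Rd X ρ) :
    x ∈ Rd X ρ' := by
  obtain ⟨h1, h2, h3, h4, h5⟩ := hx
  have hX1 : (1 : ℝ) ≤ X := by linarith
  refine ⟨h1, h2, fun i => (Real.rpow_le_rpow_of_exponent_le hX1 (by linarith)).trans (h3 i),
    h4.trans (Real.rpow_le_rpow_of_exponent_le hX1 hρ), h5.trans ?_⟩
  exact mul_le_mul_of_nonneg_right hρ (Real.log_nonneg hX1)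

theorem rgs_fw {X ρ K₀ : ℝ} (hX : 16 ≤ X) {x : Fin 3 → ℤ} (hx : x ∈ Rd X ρ)
    (hh : Real.log (ht x) ≤ Real.log X ^ K₀) :
    x ∈ Fw X ⌊ρ * Real.log X / Real.log (Real.log X)⌋₊ ⌊2 * Real.log X ^ K₀⌋₊ := by
  obtain ⟨ha, h2, -, -, h5⟩ := hx
  have hl16 : Real.log 16 ≤ Real.log X := Real.log_le_log (by norm_num) hX
  have hLL : 0 < Real.log (Real.log X) := Real.log_pos (by linarith [log16])
  refine ⟨ha, h2, Nat.le_floor ((le_div_iff₀ hLL).2 h5), fun p => Nat.le_floor ?_⟩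
  have h1 := Pool.Agent.H86.AB.rg2_pow x ha p
  have h2 : ((2 : ℝ) ^ (pr x).factorization p) ≤ (ht x : ℝ) := by exact_mod_cast h1
  have h3 : Real.log ((2 : ℝ) ^ (pr x).factorization p) ≤ Real.log (ht x) :=
    Real.log_le_log (by positivity) h2
  rw [Real.log_pow] at h3
  have h4 : (1 : ℝ) / 2 ≤ Real.log 2 := by linarith [Real.log_two_gt_d9]
  have h5 : ((pr x).factorization p : ℝ) * (1 / 2) ≤
      ((pr x).factorization p : ℝ) * Real.log 2 :=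
    mul_le_mul_of_nonneg_left h4 (Nat.cast_nonneg _)
  linarith

theorem exV (K₀ : ℝ) : ∃ X₀ : ℝ, 16 ≤ X₀ ∧ ∀ X : ℝ, X₀ ≤ X →
    2 * Real.log X ^ K₀ ≤ X ^ (1 / 1000 : ℝ) := by
  have h := (isLittleO_log_rpow_rpow_atTop K₀ (show (0 : ℝ) < 1 / 1000 by norm_num)).bound
    (show (0 : ℝ) < 1 / 2 by norm_num)
  obtain ⟨X₁, hX₁⟩ := Filter.eventually_atTop.1 h
  refine ⟨max 16 X₁, le_max_left _ _, fun X hX => ?_⟩
  have h16 : 16 ≤ X := (le_max_left _ _).trans hX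
  have h1 := hX₁ X ((le_max_right _ _).trans hX)
  rw [Real.norm_of_nonneg (Real.rpow_nonneg (Real.log_nonneg (by linarith)) _),
    Real.norm_of_nonneg (Real.rpow_nonneg (by linarith) _)] at h1
  linarith

theorem pf_RGS (hCLE : T_CLE) (hCLA : T_CLA) (hCJG : T_CJG) (hNUS : T_NUS) (hSLS : T_SLS)
    (hTFI : T_TFI) : T_RGS := by
  intro K₀ hK₀
  obtain ⟨D, A₀, ρ₁, hD, hA₀, hρ₁, hS⟩ := hSLS
  obtain ⟨ρ₂, CN, hρ₂, hCN, hN⟩ := hNUS K₀ (1 / 400) hK₀ (by norm_num)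
  obtain ⟨CJ, hCJ, hJ⟩ := hCJG D (1 / 1000) hD (by norm_num)
  obtain ⟨CT, hCT, hT⟩ := hTFI 1 one_pos
  obtain ⟨X₀, hX₀, hV₀⟩ := exV K₀
  have hX₀0 : 0 < X₀ := by linarith
  refine ⟨A₀, min ρ₁ ρ₂, 1 / 200, 2 * CN + CJ * CN + CT * X₀ ^ (2 / 3 + 1 : ℝ), hA₀,
    lt_min hρ₁ hρ₂, by norm_num, by positivity, ?_⟩
  intro X hX
  have hX0 : 0 < X := by linarith
  have hX1 : 1 ≤ X := by linarith
  obtain ⟨S, hSdef⟩ : ∃ S : Set (Fin 3 → ℤ), S = {x | x ∈ Rd X (min ρ₁ ρ₂) ∧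
    A₀ * Real.log X ≤ Real.log (ht x) ∧ Real.log (ht x) ≤ Real.log X ^ K₀} := ⟨_, rfl⟩
  rw [← hSdef]
  rcases lt_or_ge X X₀ with hlt | hge
  · obtain ⟨f1, c1⟩ := hT X hX1
    have hsub : S ⊆ {x | Adm x ∧ (pd (pr x).primeFactors : ℝ) ≤ X} := by
      intro x hx
      rw [hSdef] at hx
      exact ⟨hx.1.1, hx.1.2.1⟩
    refine ⟨f1.subset hsub, ?_⟩
    have h1 : (S.ncard : ℝ) ≤ CT * X ^ (2 / 3 + 1 : ℝ) :=
      (by exact_mod_cast Set.ncard_le_ncard hsub f1 : (S.ncard : ℝ) ≤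
        ({x | Adm x ∧ (pd (pr x).primeFactors : ℝ) ≤ X}.ncard : ℝ)).trans c1
    have h2 : X ^ (2 / 3 + 1 : ℝ) ≤ X₀ ^ (2 / 3 + 1 : ℝ) :=
      Real.rpow_le_rpow hX0.le hlt.le (by norm_num)
    have h3 : (1 : ℝ) ≤ X ^ (2 / 3 - 1 / 200 : ℝ) := Real.one_le_rpow hX1 (by norm_num)
    have h4 : 0 ≤ (2 * CN + CJ * CN) * X ^ (2 / 3 - 1 / 200 : ℝ) := by positivity
    calc (S.ncard : ℝ) ≤ CT * X₀ ^ (2 / 3 + 1 : ℝ) * 1 := by
          rw [mul_one]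
          exact h1.trans (mul_le_mul_of_nonneg_left h2 hCT.le)
      _ ≤ CT * X₀ ^ (2 / 3 + 1 : ℝ) * X ^ (2 / 3 - 1 / 200 : ℝ) :=
          mul_le_mul_of_nonneg_left h3 (by positivity)
      _ ≤ (2 * CN + CJ * CN + CT * X₀ ^ (2 / 3 + 1 : ℝ)) * X ^ (2 / 3 - 1 / 200 : ℝ) := by
          rw [add_mul (2 * CN + CJ * CN)]
          linarith
  · have h16 : 16 ≤ X := hX₀.trans hge
    have hl16 : Real.log 16 ≤ Real.log X := Real.log_le_log (by norm_num) h16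
    have hLL : 0 < Real.log (Real.log X) := Real.log_pos (by linarith [log16])
    have hL0 : 0 ≤ Real.log X := Real.log_nonneg hX1
    obtain ⟨Ω, hΩ⟩ : ∃ Ω : ℕ, Ω = ⌊ρ₂ * Real.log X / Real.log (Real.log X)⌋₊ := ⟨_, rfl⟩
    obtain ⟨V, hV⟩ : ∃ V : ℕ, V = ⌊2 * Real.log X ^ K₀⌋₊ := ⟨_, rfl⟩
    obtain ⟨Z, hZ⟩ : ∃ Z : ℝ, Z = X ^ (2 / 3 - 1 / 100 : ℝ) := ⟨_, rfl⟩
    obtain ⟨Z', hZ'⟩ : ∃ Z' : ℝ, Z' = X ^ (1 / 2 : ℝ) := ⟨_, rfl⟩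
    have hZ0 : 0 ≤ Z := by
      rw [hZ]
      positivity
    have hZ0' : 0 ≤ Z' := by
      rw [hZ']
      positivity
    have hK0 : 0 ≤ Real.log X ^ K₀ := Real.rpow_nonneg hL0 _
    have hΩ' : (Ω : ℝ) * Real.log (Real.log X) ≤ ρ₂ * Real.log X := by
      rw [hΩ]
      exact (le_div_iff₀ hLL).1 (Nat.floor_le (by positivity))
    have hV1 : (V : ℝ) ≤ 2 * Real.log X ^ K₀ := by
      rw [hV]
      exact Nat.floor_le (by positivity)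
    have hLo : Lo 11 X Ω V ≤ CN * X ^ (1 / 400 : ℝ) := hN X Ω V h16 hΩ' (by linarith)
    have hLo0 : 0 ≤ Lo 11 X Ω V := by
      unfold Lo
      positivity
    obtain ⟨fE, cE⟩ := hCLE X Z Ω V hX hZ0
    obtain ⟨fA, cA⟩ := hCLA X Ω V hX
    obtain ⟨fJ, cJ⟩ := hJ X Z' Ω V hX hZ0' (hV1.trans (hV₀ X hge))
    have hsub : S ⊆ {x | x ∈ Fw X Ω V ∧ PA X x} ∪ ({x | x ∈ Fw X Ω V ∧ PE X Z x} ∪
        {x | x ∈ Fw X Ω V ∧ PJ D Z' x}) := by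
      intro x hx
      rw [hSdef] at hx
      obtain ⟨ha, hlo, hhi⟩ := hx
      have hfw : x ∈ Fw X Ω V := by
        rw [hΩ, hV]
        exact rgs_fw h16 (rd_mono h16 (min_le_right _ _) ha) hhi
      rcases hS X x hX (rd_mono h16 (min_le_left _ _) ha) hlo with h | h | h
      · exact Or.inl ⟨hfw, h⟩
      · exact Or.inr (Or.inl ⟨hfw, by rw [hZ]; exact h⟩)
      · exact Or.inr (Or.inr ⟨hfw, by rw [hZ']; exact h⟩)
    have hfin : ({x | x ∈ Fw X Ω V ∧ PA X x} ∪ ({x | x ∈ Fw X Ω V ∧ PE X Z x} ∪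
        {x | x ∈ Fw X Ω V ∧ PJ D Z' x})).Finite := fA.union (fE.union fJ)
    refine ⟨hfin.subset hsub, ?_⟩
    have h1 : S.ncard ≤ ({x | x ∈ Fw X Ω V ∧ PA X x}).ncard +
        (({x | x ∈ Fw X Ω V ∧ PE X Z x}).ncard + ({x | x ∈ Fw X Ω V ∧ PJ D Z' x}).ncard) :=
      (Set.ncard_le_ncard hsub hfin).trans ((Set.ncard_union_le _ _).trans
        (Nat.add_le_add_left (Set.ncard_union_le _ _) _))
    have h2 : (S.ncard : ℝ) ≤ (({x | x ∈ Fw X Ω V ∧ PA X x}).ncard : ℝ) +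
        ((({x | x ∈ Fw X Ω V ∧ PE X Z x}).ncard : ℝ) +
          (({x | x ∈ Fw X Ω V ∧ PJ D Z' x}).ncard : ℝ)) := by
      exact_mod_cast h1
    obtain ⟨Y, hY⟩ : ∃ Y : ℝ, Y = X ^ (2 / 3 - 1 / 200 : ℝ) := ⟨_, rfl⟩
    have hY0 : 0 ≤ Y := by
      rw [hY]
      positivity
    have e1 : X ^ (1 / 2 : ℝ) * X ^ (1 / 400 : ℝ) ≤ Y := by
      rw [hY, ← Real.rpow_add hX0]
      exact Real.rpow_le_rpow_of_exponent_le hX1 (by norm_num)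
    have e2 : Z * X ^ (1 / 400 : ℝ) ≤ Y := by
      rw [hY, hZ, ← Real.rpow_add hX0]
      exact Real.rpow_le_rpow_of_exponent_le hX1 (by norm_num)
    have e3 : Z' * X ^ (100 * (1 / 1000) : ℝ) * X ^ (1 / 400 : ℝ) ≤ Y := by
      rw [hY, hZ', ← Real.rpow_add hX0, ← Real.rpow_add hX0]
      exact Real.rpow_le_rpow_of_exponent_le hX1 (by norm_num)
    have b1 : (({x | x ∈ Fw X Ω V ∧ PA X x}).ncard : ℝ) ≤ CN * Y := by
      calc (({x | x ∈ Fw X Ω V ∧ PA X x}).ncard : ℝ) ≤ X ^ (1 / 2 : ℝ) * Lo 11 X Ω V := cA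
        _ ≤ X ^ (1 / 2 : ℝ) * (CN * X ^ (1 / 400 : ℝ)) := by gcongr
        _ = CN * (X ^ (1 / 2 : ℝ) * X ^ (1 / 400 : ℝ)) := by ring
        _ ≤ CN * Y := by gcongr
    have b2 : (({x | x ∈ Fw X Ω V ∧ PE X Z x}).ncard : ℝ) ≤ CN * Y := by
      calc (({x | x ∈ Fw X Ω V ∧ PE X Z x}).ncard : ℝ) ≤ Z * Lo 11 X Ω V := cE
        _ ≤ Z * (CN * X ^ (1 / 400 : ℝ)) := by gcongr
        _ = CN * (Z * X ^ (1 / 400 : ℝ)) := by ring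
        _ ≤ CN * Y := by gcongr
    have b3 : (({x | x ∈ Fw X Ω V ∧ PJ D Z' x}).ncard : ℝ) ≤ CJ * CN * Y := by
      calc (({x | x ∈ Fw X Ω V ∧ PJ D Z' x}).ncard : ℝ) ≤
            CJ * Z' * X ^ (100 * (1 / 1000) : ℝ) * Lo 11 X Ω V := cJ
        _ ≤ CJ * Z' * X ^ (100 * (1 / 1000) : ℝ) * (CN * X ^ (1 / 400 : ℝ)) := by gcongr
        _ = CJ * CN * (Z' * X ^ (100 * (1 / 1000) : ℝ) * X ^ (1 / 400 : ℝ)) := by ring
        _ ≤ CJ * CN * Y := by gcongr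
    rw [← hY]
    have h5 : 0 ≤ CT * X₀ ^ (2 / 3 + 1 : ℝ) * Y := by positivity
    calc (S.ncard : ℝ) ≤ CN * Y + (CN * Y + CJ * CN * Y) :=
          h2.trans (add_le_add b1 (add_le_add b2 b3))
      _ ≤ (2 * CN + CJ * CN + CT * X₀ ^ (2 / 3 + 1 : ℝ)) * Y := by
          rw [add_mul (2 * CN + CJ * CN), add_mul]
          linarith

end Pool.Agent.H93.AG
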